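import Pool.Agent.N661.BH.FM2

/-!
# The fourth moment of Maass forms and their local limits (MP_a54f13_nt)

`HP` is the upper half plane `im z > 0` with the area measure `dμ = dx dy / y²`, and
`y² Δu + λ_n u = 0` is the equation of an eigenfunction of the hyperbolic Laplacian. For
Hecke-Maass forms `λ_n = 1/4 + t_n²`, `Ω` is for instance the interior of a fundamental domain, and
the hypothesis `IsQuantumErgodic` is the theorem of quantum unique ergodicity. The definitions
`MW`, `IsStationary`, `IsErgodic`, `cov`, `parallel`, `J0` are in `Pool.Agent.N661.BR.Defs`, `Gau4`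
in `Pool.Agent.N661.BR.Defs2`, `HP`, `IsQuantumErgodic`, `loc`, `frames` in
`Pool.Agent.N661.BH.Stm`, and `LocalLaws`, `GaussianFourth`, `UnifInt4` in
`Pool.Agent.N661.BH.Defs3`.

`LocalLaws Ω lam u μ` says that the laws of the functions `w ↦ u_n (z + λ_n^{-1/2} y w)`, in a
random orthonormal frame at a random point `z = x + iy` of `Ω`, converge to `μ` in the sense of
finite dimensional distributions; every sequence has a subsequence with this property. The law `μ`
is a measure on the space `MW` of the solutions of `Δf + f = 0`. Let `μ = ∫ κ_s dP(s)` be its
decomposition into translation invariant ergodic laws, and let `m_s cov ν_s` be the covariance of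
`κ_s`: `m_s` is the local mass, and `ν_s` is the law of the direction of the momentum at the scale
of the wavelength. The number `parallel ν_s` is positive if and only if `ν_s` has atoms modulo `π`,
that is, if `κ_s` contains plane waves. For the random wave of Berry `m_s = 1` and `ν_s` is uniform.

The theorem: the case `n = 4` of the conjecture on Gaussian moments, `∫ ψ u_n⁴ dμ → 3 ∫ ψ dμ` for
all `ψ`, holds if and only if (a) the functions `u_n⁴` are locally uniformly integrable, and (b)
almost no component of the local limit contains plane waves. In this case almost every component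
has no loss of mass, the covariance `J₀ (|w - w'|)` of the random wave, mean zero, vanishing three
point functions, and the four point functions of the random wave. No bound for a moment is assumed
in the direction from the fourth moments to (a) and (b), and in the other direction (a) and (b) are
the only conditions.

Proof idea. The local integrals of `(A_N - 1)²`, `A_N` the average of `(-1)^k` times the squares of
the derivatives of order `k` along the frame, `|k| < N`, have a limit which is given by compensated
compactness up to the excess of the fourth moments; if this vanishes it is at most `(N+1)/N²`. Hence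
`A_N → 1` for almost every component, and an ergodic component with `A_N → 1` has no plane waves.
The fourth moment of an ergodic component is `m_s² (3 - (3/2) parallel ν_s)`, so that the limit law
has the fourth moment `3`: there is no loss of fourth moments in the limit, and this is (a).
Conversely (a) excludes a loss of mass, and without plane waves and loss of mass all components
have the moments of the random wave up to order four.

The parts of the proof are due to helpers 8, 87, 130, 136, 141, 163, 232, 273, 278, 322, 344, 426,
507, 511, 645, 661, 717, 721, 738, 814, 868, 878, 901, 916 and 953.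
-/

set_option autoImplicit false
open MeasureTheory Filter Topology ProbabilityTheory
open scoped ContDiff ENNReal

namespace Pool.Agent.Results.MP_a54f13_nt.FourthMomentEquivalence

open Pool.Agent.W745.RW (lap)
open Pool.Agent.N661.BR (MW IsStationary IsErgodic cov parallel Gau4 J0)
open Pool.Agent.N661.BH (HP IsQuantumErgodic LocalLaws GaussianFourth UnifInt4)

/-- **Result.** Let `Ω ⊆ HP` be a nonempty open set of finite hyperbolic area and let `u n` be real
eigenfunctions of the hyperbolic Laplacian, `y² Δu + λ_n u = 0` on `HP`, `λ_n → ∞`, which are quantum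
ergodic in the unit cotangent bundle over `Ω`, and whose local laws over `Ω` converge to `μ`. Let
`μ = ∫ κ_s dP(s)`, where almost every `κ_s` is translation invariant and ergodic with covariance
`m_s cov ν_s (w - w')`. Then `∫ φ u_n⁴ dμ → 3 ∫ φ dμ` for all test functions `φ` in `Ω` if and only
if the functions `u_n⁴` are locally uniformly integrable in `Ω` and `m_s² parallel ν_s = 0` for
almost every `s`; and in this case almost every component is Gaussian to fourth order, with the
covariance of the random wave. -/
theorem result (Ω : Set ℂ) (hΩ : IsOpen Ω) (hHP : Ω ⊆ HP) (hne : Ω.Nonempty)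
    (hA : IntegrableOn (fun z : ℂ => 1 / z.im ^ 2) Ω)
    (lam : ℕ → ℝ) (hpos : ∀ n, 0 < lam n) (hlam : Tendsto lam atTop atTop)
    (u : ℕ → ℂ → ℝ) (hu : ∀ n, ContDiffOn ℝ ∞ (u n) HP)
    (heq : ∀ n, ∀ z ∈ HP, z.im ^ 2 * lap (u n) z + lam n * u n z = 0)
    (hqe : IsQuantumErgodic Ω lam u)
    (μ : Measure MW) [IsProbabilityMeasure μ] (hμ : LocalLaws Ω lam u μ)
    {S : Type*} [MeasurableSpace S] (P : Measure S) [IsProbabilityMeasure P]
    (κ : Kernel S MW) [IsMarkovKernel κ] (hκ : P.bind κ = μ)
    (herg : ∀ᵐ s ∂P, IsStationary (κ s) ∧ IsErgodic (κ s))
    (m : S → ℝ) (ν : Kernel S ℝ) [IsMarkovKernel ν]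
    (hν : ∀ᵐ s ∂P, ∀ w w' : ℂ, ∫ f : MW, f w * f w' ∂(κ s) = m s * cov (ν s) (w - w')) :
    (GaussianFourth Ω u ↔ UnifInt4 Ω u ∧ ∀ᵐ s ∂P, m s ^ 2 * parallel (ν s) = 0) ∧
    (GaussianFourth Ω u → ∀ᵐ s ∂P, Gau4 (κ s) ∧
      ∀ w w' : ℂ, ∫ f : MW, f w * f w' ∂(κ s) = J0 ‖w - w'‖) :=
  Pool.Agent.N661.BH.fourth' ⟨hΩ, hHP, hne, hA, hpos, hlam, hu, heq, hqe⟩ hμ hκ herg m ν hν

end Pool.Agent.Results.MP_a54f13_nt.FourthMomentEquivalence
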