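import Pool.Agent.N661.BH.Val

/-!
# The first four moments of the limit laws of Maass forms (MP_a54f13_nt)

`HP` is the upper half plane `im z > 0` with the area measure `dμ = dx dy / y²`, and
`y² Δu + λ_n u = 0` is the equation of an eigenfunction of the hyperbolic Laplacian. For
Hecke-Maass forms `λ_n = 1/4 + t_n²`, `Ω` is for instance the interior of a fundamental domain, and
the hypothesis `IsQuantumErgodic` is the theorem of quantum unique ergodicity. The definitions
`MW`, `IsStationary`, `IsErgodic`, `cov`, `parallel` are in `Pool.Agent.N661.BR.Defs`, `HP`,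
`IsQuantumErgodic` in `Pool.Agent.N661.BH.Stm`, `LocalLaws` in `Pool.Agent.N661.BH.Defs3`, and
`ValueLaw`, `IsNormalMixture`, `IsDivisible` in `Pool.Agent.N661.BH.Defs4`.

`LocalLaws Ω lam u μ` says that the laws of the functions `w ↦ u_n (z + λ_n^{-1/2} y w)`, in a
random orthonormal frame at a random point `z = x + iy` of `Ω`, converge to `μ`; every sequence has
a subsequence with this property. The theorem concerns the laws of the values of `u_n` at random
points of `Ω`. Let `μ = ∫ κ_s dP(s)` be the decomposition of `μ` into translation invariant ergodic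
laws, and let `m_s cov ν_s` be the covariance of `κ_s`. If no mass is lost at the scale of the
wavelength (`E f(0)² = 1`) and there are no plane waves (`m_s² parallel ν_s = 0` for almost every
`s`), then the value laws converge weakly to a law `ρ` with finite fourth moment and the moments
`0, 1, 0, 3` of the normal law `N(0,1)`. Nothing is assumed about the moments of the `u_n`: the fourth
moments of the `u_n` may be unbounded. Moreover `ρ = N(0,1)` if and only if `ρ` is a normal variance
mixture, and also if and only if `ρ` is infinitely divisible. In particular, a possible deviation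
from the normal law cannot come from a random local variance: if the limit law is the law of a
centred normal variable with random variance, as for mixtures of Gaussian fields, it is `N(0,1)`.

Proof idea. The local integrals of the squares of suitable quadratic expressions in the derivatives
of `u_n` along the frame have a limit, given by compensated compactness; for an ergodic component
this determines the moments up to order four (files `ErgodicLimits` and `ErgodicLimitPoints` of
MP_4fa179_mp). The local masses `m_s` have mean `1` and `∫ m_s² dP ≤ 1`, so that `m_s = 1`.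

The parts of the proof are due to helpers 87, 130, 136, 141, 163, 232, 273, 278, 344, 426, 507, 511,
645, 661, 717, 738, 814, 868, 878, 901, 916 and 953.
-/

set_option autoImplicit false
open MeasureTheory Filter Topology ProbabilityTheory
open scoped ContDiff ENNReal

namespace Pool.Agent.Results.MP_a54f13_nt.ValueMoments

open Pool.Agent.W745.RW (lap)
open Pool.Agent.N661.BR (MW IsStationary IsErgodic cov parallel)
open Pool.Agent.N661.BH (HP IsQuantumErgodic LocalLaws ValueLaw IsNormalMixture IsDivisible)

/-- **Result.** Let `Ω ⊆ HP` be a nonempty open set of finite hyperbolic area and let `u n` be real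
eigenfunctions of the hyperbolic Laplacian, `y² Δu + λ_n u = 0` on `HP`, `λ_n → ∞`, which are quantum
ergodic in the unit cotangent bundle over `Ω`, and whose local laws over `Ω` converge to `μ`. Let
`μ = ∫ κ_s dP(s)`, where almost every `κ_s` is translation invariant and ergodic with covariance
`m_s cov ν_s (w - w')`. If `E f(0)² = 1` and `m_s² parallel ν_s = 0` for almost every `s`, then the
values of `u n` at a random point of `Ω` converge in law to a law `ρ` with finite fourth moment and
`∫ x dρ = 0`, `∫ x² dρ = 1`, `∫ x³ dρ = 0`, `∫ x⁴ dρ = 3`; and `ρ` is the normal law if it is a normal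
variance mixture, or infinitely divisible. -/
theorem result (Ω : Set ℂ) (hΩ : IsOpen Ω) (hHP : Ω ⊆ HP) (hne : Ω.Nonempty)
    (hA : IntegrableOn (fun z : ℂ => 1 / z.im ^ 2) Ω)
    (lam : ℕ → ℝ) (hpos : ∀ n, 0 < lam n) (hlam : Tendsto lam atTop atTop)
    (u : ℕ → ℂ → ℝ) (hu : ∀ n, ContDiffOn ℝ ∞ (u n) HP)
    (heq : ∀ n, ∀ z ∈ HP, z.im ^ 2 * lap (u n) z + lam n * u n z = 0)
    (hqe : IsQuantumErgodic Ω lam u)
    (μ : Measure MW) [IsProbabilityMeasure μ] (hμ : LocalLaws Ω lam u μ)
    {S : Type*} [MeasurableSpace S] (P : Measure S) [IsProbabilityMeasure P]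
    (κ : Kernel S MW) [IsMarkovKernel κ] (hκ : P.bind κ = μ)
    (herg : ∀ᵐ s ∂P, IsStationary (κ s) ∧ IsErgodic (κ s))
    (m : S → ℝ) (ν : Kernel S ℝ) [IsMarkovKernel ν]
    (hν : ∀ᵐ s ∂P, ∀ w w' : ℂ, ∫ f : MW, f w * f w' ∂(κ s) = m s * cov (ν s) (w - w'))
    (hvar : ∫ f : MW, f 0 ^ 2 ∂μ = 1) (hp : ∀ᵐ s ∂P, m s ^ 2 * parallel (ν s) = 0) :
    ∃ ρ : Measure ℝ, IsProbabilityMeasure ρ ∧ ValueLaw Ω u ρ ∧
      Integrable (fun x : ℝ => x ^ 4) ρ ∧
      (∫ x, x ∂ρ = 0 ∧ ∫ x, x ^ 2 ∂ρ = 1 ∧ ∫ x, x ^ 3 ∂ρ = 0 ∧ ∫ x, x ^ 4 ∂ρ = 3) ∧
      (ρ = gaussianReal 0 1 ↔ IsNormalMixture ρ) ∧ (ρ = gaussianReal 0 1 ↔ IsDivisible ρ) :=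
  Pool.Agent.N661.BH.values ⟨hΩ, hHP, hne, hA, hpos, hlam, hu, heq, hqe⟩ hμ hκ herg m ν hν hvar hp

end Pool.Agent.Results.MP_a54f13_nt.ValueMoments
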